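import Pool.Agent.FHQ.StmtsO

/-!
# Squad FHQ, row BXD: the box theorem of Erdős
-/

open scoped BigOperators

noncomputable section

namespace Pool.Agent.FHQ.H81

open Pool.Agent.FHQ

open Classical in
theorem ncard_filter {α : Type} [Fintype α] (E : Set α) :
    E.ncard = ∑ a : α, if a ∈ E then 1 else 0 := by
  rw [Finset.sum_boole, Nat.cast_id, ← Set.ncard_coe_finset]
  congr 1
  ext a
  simp

theorem bxd (avs : AvsStmt) : BxdStmt := by
  classical
  intro D n'
  induction D with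
  | zero =>
    intro ε hε
    refine ⟨0, fun n _ E hE => ?_⟩
    have h1 : 0 < E.ncard := by
      rw [pow_zero, mul_one] at hE
      have : (0 : ℝ) < E.ncard := hε.trans_le hE
      exact_mod_cast this
    obtain ⟨e, he⟩ := Set.nonempty_of_ncard_ne_zero h1.ne'
    refine ⟨fun j => j.elim0, fun j => j.elim0, fun η => ?_⟩
    rw [Subsingleton.elim (sg _ η) e]
    exact he
  | succ D ih =>
    intro ε hε
    obtain ⟨m0, hm0⟩ := ih (ε / 2) (by positivity)
    obtain ⟨m, hm⟩ : ∃ m, m = max m0 1 := ⟨_, rfl⟩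
    have hmm0 : m0 ≤ m := hm ▸ le_max_left _ _
    have hm1 : 1 ≤ m := hm ▸ le_max_right _ _
    refine ⟨max m (⌈(Fintype.card (Fin D → Fin n' → Fin m) * n' : ℕ) / (ε / 2)⌉₊ + 1),
      fun n hn E hE => ?_⟩
    have hmn : m ≤ n := (le_max_left _ _).trans hn
    have hn1 : 1 ≤ n := hm1.trans hmn
    have hnR : (0 : ℝ) < n := by exact_mod_cast hn1
    have hmR : (0 : ℝ) < m := by exact_mod_cast hm1
    have hbig : ((Fintype.card (Fin D → Fin n' → Fin m) * n' : ℕ) : ℝ) ≤ ε / 2 * n := by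
      have h1 : ⌈(Fintype.card (Fin D → Fin n' → Fin m) * n' : ℕ) / (ε / 2)⌉₊ ≤ n :=
        (Nat.le_succ _).trans ((le_max_right _ _).trans hn)
      have h2 := (Nat.le_ceil (((Fintype.card (Fin D → Fin n' → Fin m) * n' : ℕ) : ℝ) /
        (ε / 2))).trans (Nat.cast_le.2 h1)
      rw [div_le_iff₀ (by positivity)] at h2
      linarith
    set w : (Fin D → Fin n) → ℕ := fun η =>
      ∑ t : Fin n, if (Fin.cons t η : Fin (D + 1) → Fin n) ∈ E then 1 else 0 with hw
    have hsum : ∑ η, w η = E.ncard := by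
      rw [ncard_filter]
      simp only [hw]
      rw [Finset.sum_comm, ← Fintype.sum_prod_type']
      exact Fintype.sum_equiv (Fin.consEquiv fun _ => Fin n) _ _ fun a => rfl
    obtain ⟨s1, hs1, h1⟩ := avs D m n hmn w
    rw [hsum] at h1
    -- the fibres
    set Et : Fin n → Set (Fin D → Fin m) := fun t =>
      {η | (Fin.cons t (sg s1 η) : Fin (D + 1) → Fin n) ∈ E} with hEt
    have hsum2 : ∑ t, (Et t).ncard = ∑ η : Fin D → Fin m, w (sg s1 η) := by
      simp only [ncard_filter, hw]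
      rw [Finset.sum_comm]
      rfl
    have h2 : ε * n * (m : ℝ) ^ D ≤ ∑ t, ((Et t).ncard : ℝ) := by
      have h3 : (E.ncard : ℝ) * (m : ℝ) ^ D ≤ (∑ t, ((Et t).ncard : ℝ)) * (n : ℝ) ^ D := by
        have h4 := h1
        rw [← hsum2] at h4
        exact_mod_cast h4
      have h5 : ε * (n : ℝ) ^ (D + 1) * (m : ℝ) ^ D ≤ (∑ t, ((Et t).ncard : ℝ)) * (n : ℝ) ^ D :=
        (mul_le_mul_of_nonneg_right hE (by positivity)).trans h3
      have h6 : (0 : ℝ) < (n : ℝ) ^ D := by positivity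
      refine le_of_mul_le_mul_right ?_ h6
      calc ε * n * (m : ℝ) ^ D * (n : ℝ) ^ D = ε * (n : ℝ) ^ (D + 1) * (m : ℝ) ^ D := by ring
        _ ≤ _ := h5
    set Gd : Finset (Fin n) :=
      Finset.univ.filter fun t => ε / 2 * (m : ℝ) ^ D ≤ ((Et t).ncard : ℝ) with hGd
    have h3 : ε / 2 * n ≤ (Gd.card : ℝ) := by
      have e1 : ∀ t, ((Et t).ncard : ℝ) ≤
          ε / 2 * (m : ℝ) ^ D + if t ∈ Gd then (m : ℝ) ^ D else 0 := by
        intro t
        by_cases ht : t ∈ Gd
        · rw [if_pos ht]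
          have e2 : (Et t).ncard ≤ m ^ D := by
            have := Set.ncard_le_ncard (Set.subset_univ (Et t)) Set.finite_univ
            rw [Set.ncard_univ, Nat.card_eq_fintype_card] at this
            simpa using this
          have e3 : ((Et t).ncard : ℝ) ≤ (m : ℝ) ^ D := by exact_mod_cast e2
          have e4 : 0 ≤ ε / 2 * (m : ℝ) ^ D := by positivity
          linarith
        · rw [if_neg ht, add_zero]
          have e2 : ¬ ε / 2 * (m : ℝ) ^ D ≤ ((Et t).ncard : ℝ) := fun h =>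
            ht (Finset.mem_filter.2 ⟨Finset.mem_univ _, h⟩)
          exact (not_le.1 e2).le
      have e5 : ∑ t, ((Et t).ncard : ℝ) ≤ n * (ε / 2 * (m : ℝ) ^ D) + Gd.card * (m : ℝ) ^ D := by
        refine (Finset.sum_le_sum fun t _ => e1 t).trans (le_of_eq ?_)
        rw [Finset.sum_add_distrib, Finset.sum_const, Finset.card_univ, Fintype.card_fin,
          nsmul_eq_mul, Finset.sum_ite_mem, Finset.univ_inter, Finset.sum_const, nsmul_eq_mul]
      have e6 : (0 : ℝ) < (m : ℝ) ^ D := by positivity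
      have e7 : ε / 2 * n * (m : ℝ) ^ D ≤ Gd.card * (m : ℝ) ^ D := by nlinarith
      exact le_of_mul_le_mul_right e7 e6
    rcases Nat.eq_zero_or_pos n' with hn0 | hn0
    · subst hn0
      exact ⟨fun _ a => a.elim0, fun _ a => a.elim0, fun η => (η 0).elim0⟩
    have hφ : ∀ t : Fin n, ∃ σ : Fin D → Fin n' → Fin m, t ∈ Gd →
        (∀ j, StrictMono (σ j)) ∧ ∀ η : Fin D → Fin n', sg σ η ∈ Et t := by
      intro t
      by_cases ht : t ∈ Gd
      · obtain ⟨σ, hσ⟩ := hm0 m hmm0 (Et t) (Finset.mem_filter.1 ht).2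
        exact ⟨σ, fun _ => hσ⟩
      · exact ⟨fun _ _ => ⟨0, hm1⟩, fun h => absurd h ht⟩
    choose φ hφ using hφ
    have : Nonempty (Fin D → Fin n' → Fin m) := ⟨fun _ _ => ⟨0, hm1⟩⟩
    obtain ⟨σ, -, hσ⟩ := Finset.exists_le_card_fiber_of_mul_le_card_of_maps_to (s := Gd)
      (t := (Finset.univ : Finset (Fin D → Fin n' → Fin m))) (f := φ) (n := n')
      (fun a _ => Finset.mem_univ _) Finset.univ_nonempty (by
        rw [Finset.card_univ]
        exact_mod_cast hbig.trans h3)
    set T := Gd.filter fun t => φ t = σ with hT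
    have hmemT : ∀ a : Fin n', Finset.orderEmbOfCardLe T hσ a ∈ T := fun a =>
      Finset.orderEmbOfCardLe_mem T hσ a
    have hG : ∀ a : Fin n', Finset.orderEmbOfCardLe T hσ a ∈ Gd ∧
        φ (Finset.orderEmbOfCardLe T hσ a) = σ := fun a => Finset.mem_filter.1 (hmemT a)
    have hσm : ∀ j, StrictMono (σ j) := by
      have h4 := hG ⟨0, hn0⟩
      have h5 := (hφ _ h4.1).1
      rw [h4.2] at h5
      exact h5
    refine ⟨Fin.cons (Finset.orderEmbOfCardLe T hσ) (fun j a => s1 j (σ j a)), ?_, ?_⟩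
    · intro j
      refine Fin.cases ?_ (fun j => ?_) j
      · rw [Fin.cons_zero]
        exact (Finset.orderEmbOfCardLe T hσ).strictMono
      · rw [Fin.cons_succ]
        exact (hs1 j).comp (hσm j)
    · intro η
      have h4 := hG (η 0)
      have h5 := (hφ _ h4.1).2 (Fin.tail η)
      rw [h4.2] at h5
      have h6 : (Fin.cons (Finset.orderEmbOfCardLe T hσ (η 0)) (sg s1 (sg σ (Fin.tail η))) :
          Fin (D + 1) → Fin n) ∈ E := h5
      have h7 : sg (Fin.cons (Finset.orderEmbOfCardLe T hσ) (fun j a => s1 j (σ j a)) :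
          Fin (D + 1) → Fin n' → Fin n) η =
          Fin.cons (Finset.orderEmbOfCardLe T hσ (η 0)) (sg s1 (sg σ (Fin.tail η))) := by
        funext j
        refine Fin.cases ?_ (fun j => ?_) j
        · rfl
        · rfl
      rw [h7]
      exact h6

end Pool.Agent.FHQ.H81
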