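import Pool.Agent.FHQ.StmtsU

/-!
# Squad FHQ, row XT2: the extension of the partial isomorphism
-/

open scoped BigOperators

noncomputable section

namespace Pool.Agent.FHQ.H81

open Polynomial

/-- a relatively algebraically closed subfield of an algebraically closed field -/
theorem isAlgClosed_sub {L : Type} [Field L] [IsAlgClosed L] (M : Subfield L)
    (hM : ∀ a : L, IsAlgebraic M a → a ∈ M) : IsAlgClosed M := by
  refine IsAlgClosed.of_exists_root M fun P hP hi => ?_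
  obtain ⟨a, ha⟩ := IsAlgClosed.exists_aeval_eq_zero L P (Polynomial.degree_pos_of_irreducible hi).ne'
  have h1 : a ∈ M := hM a ⟨P, hP.ne_zero, ha⟩
  refine ⟨⟨a, h1⟩, ?_⟩
  have h2 : (algebraMap M L) (P.eval ⟨a, h1⟩) = 0 := by
    rw [← Polynomial.aeval_algebraMap_apply_eq_algebraMap_eval]
    exact ha
  exact (map_eq_zero _).1 h2

/-- an algebraically closed subfield contains the algebraic elements -/
theorem mem_of_isAlgClosed {L : Type} [Field L] (M : Subfield L) [IsAlgClosed M] {a : L}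
    (ha : IsAlgebraic M a) : a ∈ M := by
  have h1 : (minpoly M a).degree = 1 :=
    IsAlgClosed.degree_eq_one_of_irreducible M (minpoly.irreducible ha.isIntegral)
  obtain ⟨b, hb⟩ := minpoly.mem_range_of_degree_eq_one M a h1
  rw [← hb]
  exact b.2

theorem xt2 (pix : PixStmt) (ext : ExtStmt) (bas : BasStmt) : Xt2Stmt := by
  intro p _ U hp K1 K2 θ hPI x hxf hx hEH ρ hρ z hz
  obtain ⟨bac, bc0, bbij, bfix, badd, bone, bzero, bext⟩ := bas p U hp
  obtain ⟨xcnt, xcl, xfin, xK, xx, xE, xrep⟩ := pix p U hp K1 K2 θ hPI x hxf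
  have := bac
  -- the homomorphism ψ
  have ψadd : ∀ a b : hhx (Ph p U) K1 x, emb p U (fun i => z i (a + b)) =
      emb p U (fun i => z i a) + emb p U (fun i => z i b) := by
    intro a b
    rw [← (badd _ _).1, bext]
    exact (hz (CI.add a b)).mono fun i h => h
  have ψmul : ∀ a b : hhx (Ph p U) K1 x, emb p U (fun i => z i (a * b)) =
      emb p U (fun i => z i a) * emb p U (fun i => z i b) := by
    intro a b
    rw [← (badd _ _).2, bext]
    exact (hz (CI.mul a b)).mono fun i h => h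
  have ψcon : ∀ e : ↥(K1 ⊓ fixs (Ph p U)), emb p U (fun i => z i ⟨(e : UF p U), hEH e.2⟩) =
      θ ⟨(e : UF p U), e.2.1⟩ := by
    intro e
    rw [← hρ e, bext]
    exact (hz (CI.con e)).mono fun i h => h
  have ψone : emb p U (fun i => z i (1 : hhx (Ph p U) K1 x)) = 1 := by
    have h1 := ψcon 1
    have h2 : θ ⟨((1 : ↥(K1 ⊓ fixs (Ph p U))) : UF p U), (1 : ↥(K1 ⊓ fixs (Ph p U))).2.1⟩ = 1 := map_one θ
    rw [h2] at h1
    exact h1
  have ψzero : emb p U (fun i => z i (0 : hhx (Ph p U) K1 x)) = 0 := by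
    have h1 := ψadd 0 0
    rw [add_zero] at h1
    have h2 := left_eq_add.1 h1
    exact h2
  let ψ : hhx (Ph p U) K1 x →+* UF p U :=
    { toFun := fun a => emb p U (fun i => z i a)
      map_one' := ψone
      map_mul' := ψmul
      map_zero' := ψzero
      map_add' := ψadd }
  let θ1 : K1 →+* UF p U := K2.subtype.comp θ.toRingHom
  obtain ⟨Θ, hΘ1, hΘ2, hΘ3⟩ := ext (UF p U) (Ph p U) K1 (hhx (Ph p U) K1 x) (aclx K1 x) θ1 ψ xK inf_le_left inf_le_right hEH
    (fun a => by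
      obtain ⟨h, h'⟩ := hPI.st a
      exact ⟨h, h'⟩)
    (fun b => (bfix _).2 ⟨_, rfl⟩)
    (fun a hK hHa => by
      have h1 : a ∈ K1 ⊓ fixs (Ph p U) := ⟨hK, hHa.2⟩
      exact (ψcon ⟨a, h1⟩).symm)
    (fun a ha => xrep a ha)
  have hac : IsAlgClosed (aclx K1 x) := isAlgClosed_sub (aclx K1 x) xcl
  have hac2 : IsAlgClosed Θ.fieldRange := IsAlgClosed.of_ringEquiv (aclx K1 x) _ Θ.rangeRestrictFieldEquiv
  refine ⟨aclx K1 x, Θ.fieldRange, Θ.rangeRestrictFieldEquiv, ?_, ?_, ?_⟩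
  · constructor
    · exact xcnt
    · exact xcl
    · intro a ha
      exact mem_of_isAlgClosed _ ha
    · intro a ha
      exact (xfin a ha).2
    · intro a
      obtain ⟨h, h'⟩ := hΘ3 a
      exact ⟨h, h'⟩
    · intro m hm
      obtain ⟨α, h1, h2⟩ := hPI.al m hm
      exact ⟨α, xK h1, h2⟩
  · exact ⟨xK, fun a => hΘ1 a (xK a.2)⟩
  · exact ⟨xx.1, hΘ2 ⟨x, hx⟩ xx.1⟩

end Pool.Agent.FHQ.H81
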