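import Pool.Agent.FHQ.StmtsO

/-!
# Squad FHQ, row OV1: the one-variable theorem for single pieces
-/

open scoped BigOperators

noncomputable section

namespace Pool.Agent.FHQ.H81

open Pool.Agent.FHQ

section

variable {p : ℕ} {K : Type} [Field K] (A : AcF p K) {D n : ℕ}
  (P : Fin D → (Fin D → Fin n) → Pc p K) (x : (Fin D → Fin n) → K)

open Classical in
/-- the indices for which the distance to the centre is maximal -/
def II (η : Fin D → Fin n) : Finset (Fin D) :=
  Finset.univ.filter fun i => x η ≠ (P i η).c ∧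
    ∀ j, x η ≠ (P j η).c → A.v (x η - (P i η).c) ≤ A.v (x η - (P j η).c)

theorem mem_II {η : Fin D → Fin n} {i : Fin D} : i ∈ II A P x η ↔ x η ≠ (P i η).c ∧
    ∀ j, x η ≠ (P j η).c → A.v (x η - (P i η).c) ≤ A.v (x η - (P j η).c) := by
  classical
  unfold II
  simp only [Finset.mem_filter, Finset.mem_univ, true_and]

theorem II_empty {η : Fin D → Fin n} (h : II A P x η = ∅) (i : Fin D) : x η = (P i η).c := by
  classical
  by_contra hi
  obtain ⟨j, hj1, hj2⟩ := Finset.exists_min_image
    (Finset.univ.filter fun i => x η ≠ (P i η).c) (fun i => A.v (x η - (P i η).c))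
    ⟨i, Finset.mem_filter.2 ⟨Finset.mem_univ _, hi⟩⟩
  have h1 : j ∈ II A P x η := (mem_II A P x).2 ⟨(Finset.mem_filter.1 hj1).2,
    fun k hk => hj2 k (Finset.mem_filter.2 ⟨Finset.mem_univ _, hk⟩)⟩
  rw [h] at h1
  exact absurd h1 (Finset.notMem_empty _)

end

theorem const_of_coord {D n : ℕ} {α : Type} (x : (Fin D → Fin n) → α)
    (h : ∀ (i : Fin D) (η η' : Fin D → Fin n), (∀ j, j ≠ i → η j = η' j) → x η = x η')
    (S : Finset (Fin D)) : ∀ η η' : Fin D → Fin n, (∀ j, j ∉ S → η j = η' j) → x η = x η' := by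
  classical
  induction S using Finset.induction_on with
  | empty =>
    intro η η' h1
    have : η = η' := funext fun j => h1 j (Finset.notMem_empty _)
    rw [this]
  | insert a S _ ih =>
    intro η η' h1
    have h2 : x η = x (Function.update η a (η' a)) := by
      refine h a _ _ fun j hj => ?_
      rw [Function.update_of_ne hj]
    rw [h2]
    refine ih _ _ fun j hj => ?_
    by_cases hja : j = a
    · rw [hja, Function.update_self]
    · rw [Function.update_of_ne hja]
      exact h1 j fun h3 => (Finset.mem_insert.1 h3).elim hja hj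

theorem ov1 (bxc : BxcStmt) (lex : LexStmt) (oc0 : Oc0Stmt) (oc1 : Oc1Stmt) (oc2 : Oc2Stmt) :
    Ov1Stmt := by
  classical
  intro D N m n' hD hm
  obtain ⟨nA, hA⟩ := oc0 D N m n'
  obtain ⟨nC, hC⟩ := oc2 D N m n' hm
  obtain ⟨n1, hn1⟩ : ∃ n1, n1 = max nA (max (n' + 1) nC) := ⟨_, rfl⟩
  have hn1A : nA ≤ n1 := hn1 ▸ le_max_left _ _
  have hn1B : n' + 1 ≤ n1 := hn1 ▸ (le_max_left _ _).trans (le_max_right _ _)
  have hn1C : nC ≤ n1 := hn1 ▸ (le_max_right _ _).trans (le_max_right _ _)
  obtain ⟨n2, h2⟩ := lex D n1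
  have hn2 : n1 ≤ n2 := by
    obtain ⟨s, V, hs, -⟩ := h2 fun _ => 0
    have := Fintype.card_le_of_injective _ (hs ⟨0, hD⟩)
    simpa using this
  obtain ⟨n3, h3⟩ := bxc D n2 (Finset (Fin D))
  refine ⟨n3, ?_⟩
  intro p _ K _ A P x hind hmem htame
  obtain ⟨s0, hs0, I, hI⟩ := h3 (II A P x)
  refine Cons.sub (s := s0) (fun j => (hs0 j).injective) ?_
  have hind1 : ∀ (i : Fin D) (η η' : Fin D → Fin n2), (∀ j, j ≠ i → η j = η' j) →
      P i (sg s0 η) = P i (sg s0 η') := fun i η η' h => hind i _ _ fun j hj => by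
    show s0 j (η j) = s0 j (η' j)
    rw [h j hj]
  rcases I.eq_empty_or_nonempty with hIe | ⟨i0, hi0⟩
  · -- all points are centres
    have hc : ∀ (i : Fin D) (η : Fin D → Fin n2), x (sg s0 η) = (P i (sg s0 η)).c := fun i η =>
      II_empty A P x (by rw [hI η, hIe]) i
    have hconst := const_of_coord (fun η : Fin D → Fin n2 => x (sg s0 η)) (fun i η η' h => by
      show x (sg s0 η) = x (sg s0 η')
      rw [hc i η, hc i η', hind1 i η η' h]) Finset.univ
    have hle : n' ≤ n2 := by omega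
    have hpos : 0 < n2 := by omega
    refine ⟨⟨0, hD⟩, fun _ => Fin.castLE hle, fun _ => Fin.castLE_injective hle,
      x (sg s0 fun _ => ⟨0, hpos⟩), fun η => ?_⟩
    have h4 := hconst (fun _ => ⟨0, hpos⟩) (sg (fun _ => Fin.castLE hle) η)
      (fun j hj => absurd (Finset.mem_univ j) hj)
    have h5 : x (sg s0 fun _ => ⟨0, hpos⟩) = x (sg s0 (sg (fun _ => Fin.castLE hle) η)) := h4
    rw [h5]
    exact hmem _ _
  · -- the grid
    have hmI : ∀ (i : Fin D) (η : Fin D → Fin n2), i ∈ I ↔ x (sg s0 η) ≠ (P i (sg s0 η)).c ∧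
        ∀ j, x (sg s0 η) ≠ (P j (sg s0 η)).c →
          A.v (x (sg s0 η) - (P i (sg s0 η)).c) ≤ A.v (x (sg s0 η) - (P j (sg s0 η)).c) := by
      intro i η
      rw [← hI η]
      exact mem_II A P x
    have hgrid : Grid A I (fun i η => P i (sg s0 η)) (fun η => x (sg s0 η))
        (fun η => A.v (x (sg s0 η) - (P i0 (sg s0 η)).c)) := by
      constructor
      · exact ⟨i0, hi0⟩
      · exact hind1
      · exact fun i η => hmem i _
      · intro i hi η
        have e1 := (hmI i η).1 hi
        have e2 := (hmI i0 η).1 hi0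
        exact ⟨e1.1, le_antisymm (e1.2 i0 e2.1) (e2.2 i e1.1)⟩
      · intro i hi η
        by_cases hx : x (sg s0 η) = (P i (sg s0 η)).c
        · exact Or.inl hx
        · right
          have e2 := (hmI i0 η).1 hi0
          have e3 : ¬ ∀ j, x (sg s0 η) ≠ (P j (sg s0 η)).c →
              A.v (x (sg s0 η) - (P i (sg s0 η)).c) ≤ A.v (x (sg s0 η) - (P j (sg s0 η)).c) :=
            fun h => hi ((hmI i η).2 ⟨hx, h⟩)
          push Not at e3
          obtain ⟨j, hj1, hj2⟩ := e3
          exact (e2.2 j hj1).trans_lt hj2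
    obtain ⟨s1, V, hs1, hmon⟩ := h2 fun η => A.v (x (sg s0 η) - (P i0 (sg s0 η)).c)
    refine Cons.sub (s := s1) hs1 ?_
    have hgrid1 := hgrid.sub s1
    rcases hmon.top with hV | ⟨i, hi, htop⟩
    · have hsub := hgrid1.sub (fun _ : Fin D => Fin.castLE hn1A)
      refine Cons.sub (s := fun _ => Fin.castLE hn1A) (fun _ => Fin.castLE_injective hn1A) ?_
      refine hA p K A I _ _ _ hsub (fun i η => htame i _) fun η η' => ?_
      refine hmon.out _ _ fun j hj => ?_
      rw [hV] at hj
      exact absurd hj (Finset.notMem_empty _)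
    · by_cases hiI : i ∈ I
      · have hsub := hgrid1.sub (fun _ : Fin D => Fin.castLE hn1C)
        have hmon1 := hmon.sub (s := fun _ => Fin.castLE hn1C) (fun _ => Fin.strictMono_castLE hn1C)
        refine Cons.sub (s := fun _ => Fin.castLE hn1C) (fun _ => Fin.castLE_injective hn1C) ?_
        refine hC p K A I V _ _ _ i hsub (fun i η => htame i _) hmon1 hiI fun η η' h => ?_
        exact htop _ _ (Fin.strictMono_castLE hn1C h)
      · have hsub := hgrid1.sub (fun _ : Fin D => Fin.castLE hn1B)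
        have hmon1 := hmon.sub (s := fun _ => Fin.castLE hn1B) (fun _ => Fin.strictMono_castLE hn1B)
        refine Cons.sub (s := fun _ => Fin.castLE hn1B) (fun _ => Fin.castLE_injective hn1B) ?_
        exact oc1 D n' p K A I V _ _ _ hsub hmon1 ⟨i, hi, hiI⟩

end Pool.Agent.FHQ.H81
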